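import Mathlib
import Pool.Agent.N417.SM.And
import Pool.Agent.N417.SM.And2
import Pool.Agent.N740.HK.Sch

/-!
# Andrica's inequality in random sets: the critical density to second order

A random set of integers is built one integer at a time, with arbitrary dependence.  The inequality
`√(p (n + 1)) - √(p n) < 1` holds for all large `n` if the conditional probabilities are at least
`(log n + c log log n) / (4 √n)` with `c > 4`, and fails for infinitely many `n` if they are at most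
`(log n + 4 log log n) / (4 √n)` (and of the order `log n / √n`).  The primes are much denser.
-/

set_option autoImplicit false

open MeasureTheory Filter Set ProbabilityTheory
open scoped Topology

namespace Pool.Agent.Results.MP_82fd4a_nt.CriticalDensity

variable {Ω : Type}

/-- the conditional probability of choosing `n + 1`, given the decisions up to `n` -/
noncomputable def P [m : MeasurableSpace Ω] (μ : Measure Ω) (ℱ : Filtration ℕ m) (A : ℕ → Set Ω) (n : ℕ) (ω : Ω) : ℝ :=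
  (μ[(A (n + 1)).indicator (fun _ => (1 : ℝ)) | ℱ n]) ω

/-- The model of Cramér: independent events, `n` is chosen with probability `1 / log n` for `n ≥ 3`. -/
def CramerModel [MeasurableSpace Ω] (μ : Measure Ω) (A : ℕ → Set Ω) : Prop :=
  (∀ n, MeasurableSet (A n)) ∧ iIndepSet A μ ∧ ∀ n : ℕ, 3 ≤ n → μ (A n) = ENNReal.ofReal (1 / Real.log n)

open Classical in
/-- The random sieve of Hawkins: `2` is chosen, and given the decisions up to `n ≥ 2` the number
`n + 1` is chosen with probability `∏ (1 - 1 / h)`, the product over the chosen `2 ≤ h ≤ n`. -/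
def HawkinsSieve [m : MeasurableSpace Ω] (μ : Measure Ω) (ℱ : Filtration ℕ m) (A : ℕ → Set Ω) : Prop :=
  (∀ n, MeasurableSet[ℱ n] (A n)) ∧ A 2 = univ ∧
  ∀ n, 2 ≤ n → μ[(A (n + 1)).indicator (fun _ => (1 : ℝ)) | ℱ n] =ᵐ[μ]
    fun ω => ∏ h ∈ Finset.Icc 2 n, if ω ∈ A h then 1 - 1 / (h : ℝ) else 1

/-- the member number `n` of `S` in increasing order, the least member has number `0` -/
noncomputable def p (S : Set ℕ) (n : ℕ) : ℕ := Nat.nth (· ∈ S) n

/-- `√(p (n + 1)) - √(p n)` -/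
noncomputable def a (S : Set ℕ) (n : ℕ) : ℝ := √(p S (n + 1) : ℝ) - √(p S n : ℝ)

open Pool.Agent.N740.HK Pool.Agent.R528.RM

lemma prod_inv (A : ℕ → Set Ω) (n : ℕ) (ω : Ω) [DecidablePred fun h => ω ∈ A h] :
    (∏ h ∈ Finset.Icc 2 n, if ω ∈ A h then 1 - 1 / (h : ℝ) else 1) = (Y A n ω)⁻¹ := by
  unfold Y
  rw [← Finset.prod_inv_distrib]
  refine Finset.prod_congr rfl fun h hh => ?_
  have h2 : (2 : ℝ) ≤ h := by exact_mod_cast (Finset.mem_Icc.1 hh).1
  by_cases hA : ω ∈ A h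
  · rw [if_pos hA, if_pos hA, inv_div]
    field_simp
  · rw [if_neg hA, if_neg hA, inv_one]

lemma log_ratio : Tendsto (fun n : ℕ => (Real.log ((n + 1 : ℕ) : ℝ))⁻¹ * Real.log n) atTop (𝓝 1) := by
  have h1 : Tendsto (fun n : ℕ => Real.log ((n : ℝ) + 1) - Real.log n) atTop (𝓝 0) := by
    have h1 : Tendsto (fun n : ℕ => 1 + (1 : ℝ) / n) atTop (𝓝 (1 + 0)) :=
      tendsto_const_nhds.add tendsto_one_div_atTop_nhds_zero_nat
    rw [add_zero] at h1
    have h2 := (Real.continuousAt_log (one_ne_zero)).tendsto.comp h1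
    rw [Real.log_one] at h2
    refine h2.congr' ?_
    filter_upwards [eventually_gt_atTop 0] with n hn
    have hn' : (0 : ℝ) < n := by exact_mod_cast hn
    show Real.log (1 + 1 / (n : ℝ)) = _
    rw [← Real.log_div (by positivity) hn'.ne']
    congr 1
    field_simp
  have h2 : Tendsto (fun n : ℕ => Real.log ((n : ℝ) + 1)) atTop atTop :=
    Real.tendsto_log_atTop.comp (tendsto_atTop_add_const_right _ _ tendsto_natCast_atTop_atTop)
  have h3 := h1.div_atTop h2
  have h4 : Tendsto (fun n : ℕ => 1 - (Real.log ((n : ℝ) + 1) - Real.log n) / Real.log ((n : ℝ) + 1)) atTop (𝓝 (1 - 0)) :=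
    tendsto_const_nhds.sub h3
  rw [sub_zero] at h4
  refine h4.congr' ?_
  filter_upwards [h2.eventually_gt_atTop 0] with n hn
  push_cast
  field_simp
  ring

end Pool.Agent.Results.MP_82fd4a_nt.CriticalDensity

open Pool.Agent.Results.MP_82fd4a_nt.CriticalDensity Pool.Agent.N740.HK Pool.Agent.R528.RM Pool.Agent.N417.SM

/-- Let `S` be the random set of the chosen integers, `p n` its members in increasing order,
`a n = √(p (n + 1)) - √(p n)`, and let `P n` be the conditional probability of choosing `n + 1`.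
(1) If, almost surely, `P n ≥ (log n + c log log n) / (4 √n)` for all large `n`, for some `c > 4`, then,
almost surely, `S` is infinite and `a n < 1` for all large `n`.
(2) If, almost surely, `δ log n / √n ≤ P n ≤ (log n + 4 log log n) / (4 √n)` for all large `n`, for some
`δ > 0`, then, almost surely, `S` is infinite and `a n > 1` for infinitely many `n`.
(3) If `P n log n → 1` almost surely (the density of the primes), then, almost surely, `S` is infinite and
`a n < 1` for all large `n`; this holds in (4) the model of Cramér and (5) the random sieve of Hawkins. -/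
theorem Pool.Agent.Results.MP_82fd4a_nt.CriticalDensity.result
    {Ω : Type} [m : MeasurableSpace Ω] (μ : Measure Ω) [IsProbabilityMeasure μ] (A : ℕ → Set Ω) :
    (∀ ℱ : Filtration ℕ m, (∀ n, MeasurableSet[ℱ n] (A n)) →
      (∀ c : ℝ, 4 < c →
        (∀ᵐ ω ∂μ, ∀ᶠ n : ℕ in atTop, (Real.log n + c * Real.log (Real.log n)) / (4 * √(n : ℝ)) ≤ P μ ℱ A n ω) →
          ∀ᵐ ω ∂μ, {k | ω ∈ A k}.Infinite ∧ ∀ᶠ n in atTop, a {k | ω ∈ A k} n < 1) ∧
      (∀ δ : ℝ, 0 < δ →
        (∀ᵐ ω ∂μ, ∀ᶠ n : ℕ in atTop, δ * (Real.log n / √(n : ℝ)) ≤ P μ ℱ A n ω) →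
        (∀ᵐ ω ∂μ, ∀ᶠ n : ℕ in atTop, P μ ℱ A n ω ≤ (Real.log n + 4 * Real.log (Real.log n)) / (4 * √(n : ℝ))) →
          ∀ᵐ ω ∂μ, {k | ω ∈ A k}.Infinite ∧ ∃ᶠ n in atTop, 1 < a {k | ω ∈ A k} n) ∧
      ((∀ᵐ ω ∂μ, Tendsto (fun n : ℕ => P μ ℱ A n ω * Real.log n) atTop (𝓝 1)) →
          ∀ᵐ ω ∂μ, {k | ω ∈ A k}.Infinite ∧ ∀ᶠ n in atTop, a {k | ω ∈ A k} n < 1)) ∧
    (CramerModel μ A → ∀ᵐ ω ∂μ, {k | ω ∈ A k}.Infinite ∧ ∀ᶠ n in atTop, a {k | ω ∈ A k} n < 1) ∧
    (∀ ℱ : Filtration ℕ m, HawkinsSieve μ ℱ A →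
      ∀ᵐ ω ∂μ, {k | ω ∈ A k}.Infinite ∧ ∀ᶠ n in atTop, a {k | ω ∈ A k} n < 1) := by
  classical
  have hup : ∀ ℱ : Filtration ℕ m, (∀ n, MeasurableSet[ℱ n] (A n)) → ∀ c : ℝ, 4 < c →
        (∀ᵐ ω ∂μ, ∀ᶠ n : ℕ in atTop, (Real.log n + c * Real.log (Real.log n)) / (4 * √(n : ℝ)) ≤ dens μ ℱ A n ω) →
          ∀ᵐ ω ∂μ, {k | ω ∈ A k}.Infinite ∧ ∀ᶠ n in atTop, a {k | ω ∈ A k} n < 1 := by
    intro ℱ hA c hc hge
    filter_upwards [and_up hA hc hge] with ω hω
    exact sq_next one_pos hω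
  have hpr : ∀ ℱ : Filtration ℕ m, (∀ n, MeasurableSet[ℱ n] (A n)) →
      (∀ᵐ ω ∂μ, Tendsto (fun n : ℕ => dens μ ℱ A n ω * Real.log n) atTop (𝓝 1)) →
          ∀ᵐ ω ∂μ, {k | ω ∈ A k}.Infinite ∧ ∀ᶠ n in atTop, a {k | ω ∈ A k} n < 1 := by
    intro ℱ hA hd
    refine hup ℱ hA 5 (by norm_num) ?_
    filter_upwards [hd] with ω hω
    have h0 : Tendsto (fun x : ℝ => Real.log x ^ 4 / x) atTop (𝓝 0) :=
      (Real.isLittleO_pow_log_id_atTop (n := 4)).tendsto_div_nhds_zero
    filter_upwards [hω.eventually_const_le (show (1 / 2 : ℝ) < 1 by norm_num), tendsto_logN.eventually_ge_atTop 2,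
      (h0.comp tendsto_natCast_atTop_atTop).eventually_le_const (show (0 : ℝ) < 1 / 16 by norm_num),
      eventually_ge_atTop 3] with n hn hL h2 hn3
    have hn' : (3 : ℝ) ≤ n := by exact_mod_cast hn3
    simp only [Function.comp] at h2
    rw [div_le_iff₀ (by linarith)] at h2
    have hLL : Real.log (Real.log n) ≤ Real.log n := (Real.log_le_sub_one_of_pos (by linarith)).trans (by linarith)
    have hsq : 4 * Real.log n ^ 2 ≤ √(n : ℝ) := by
      apply Real.le_sqrt_of_sq_le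
      nlinarith
    have hL0 : 0 < Real.log n := by linarith
    have hs0 : 0 < √(n : ℝ) := Real.sqrt_pos.2 (by linarith)
    rw [div_le_iff₀ (by positivity)]
    have h3 : 1 / 2 * √(n : ℝ) ≤ dens μ ℱ A n ω * Real.log n * √(n : ℝ) := mul_le_mul_of_nonneg_right hn hs0.le
    have h4 : Real.log n * (6 * Real.log n) ≤ Real.log n * (dens μ ℱ A n ω * (4 * √(n : ℝ))) := by
      nlinarith
    have h5 := le_of_mul_le_mul_left h4 hL0
    linarith
  refine ⟨fun ℱ hA => ⟨hup ℱ hA, fun δ hδ hge hle => and_low hA hδ hge hle, hpr ℱ hA⟩, ?_, ?_⟩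
  · rintro ⟨hA, hi, hp⟩
    refine hpr _ (gen_meas hA) ?_
    have h1 : ∀ᵐ ω ∂μ, ∀ n, dens μ (gen hA) A n ω = (μ (A (n + 1))).toReal :=
      ae_all_iff.2 fun n => dens_gen hA hi n
    filter_upwards [h1] with ω hω
    refine log_ratio.congr' ?_
    filter_upwards [eventually_ge_atTop 2] with n hn
    rw [hω, hp (n + 1) (by omega), ENNReal.toReal_ofReal, one_div]
    have : 0 ≤ Real.log ((n + 1 : ℕ) : ℝ) := Real.log_natCast_nonneg _
    positivity
  · rintro ℱ ⟨h1, h2, h3⟩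
    have hs : Pool.Agent.N740.HK.HS μ ℱ A := ⟨h1, h2, fun n hn => by
      filter_upwards [h3 n hn] with ω hω
      rw [← prod_inv]
      exact hω⟩
    exact hpr ℱ h1 (Pool.Agent.N740.HK.hawk_dens hs)
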